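import Pool.Agent.MNE.StmtsA

/-!
# MNE, row CLO: every solution with large exponents is `Near`
-/

set_option autoImplicit false

namespace Pool.Agent.MNE.H17

open Finset

theorem le_of_pow {S T : ℕ} (hT : 1 ≤ T) (h : S ^ 50 ≤ T ^ 43) : S ≤ T := by
  by_contra hn
  push Not at hn
  have h1 : T ^ 50 < S ^ 50 := Nat.pow_lt_pow_left hn (by norm_num)
  have h2 : T ^ 43 ≤ T ^ 50 := Nat.pow_le_pow_right hT (by norm_num)
  omega

theorem near {f A W z w S : ℕ} (hf : 1 ≤ f) (hA3 : 3 * f ≤ A) (hA : A ≤ f ^ 2) (hw : 0 < w)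
    (hWS : W ^ w + S = A ^ z) (hS : 0 < S) (hle : S ^ 50 ≤ (W ^ w) ^ 43) (hW : f ≤ W)
    (hW' : W ≤ 2 * f ^ 2) (co : Nat.Coprime A W) : Near f A W z w ∧ z < 2 * w := by
  have hW1 : 1 ≤ W := hf.trans hW
  have hSW : S ≤ W ^ w := le_of_pow (Nat.one_le_pow _ _ hW1) hle
  have hz2 : z < 2 * w := by
    have h1 : (3 * f) ^ z ≤ A ^ z := Nat.pow_le_pow_left hA3 z
    have h2 : W ^ w ≤ (2 * f ^ 2) ^ w := Nat.pow_le_pow_left hW' w
    have h3 : 2 * (2 * f ^ 2) ^ w ≤ (4 * f ^ 2) ^ w := by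
      have h31 : (4 * f ^ 2) ^ w = 2 ^ w * (2 * f ^ 2) ^ w := by
        rw [← mul_pow]; congr 1; ring
      rw [h31]
      refine Nat.mul_le_mul_right _ ?_
      calc 2 = 2 ^ 1 := rfl
        _ ≤ 2 ^ w := Nat.pow_le_pow_right (by norm_num) hw
    have h4 : (4 * f ^ 2) ^ w < (9 * f ^ 2) ^ w := by
      refine Nat.pow_lt_pow_left ?_ hw.ne'
      have : 0 < f ^ 2 := by positivity
      omega
    have h5 : (9 * f ^ 2) ^ w = (3 * f) ^ (2 * w) := by
      rw [pow_mul]; congr 1; ring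
    have h6 : (3 * f) ^ z < (3 * f) ^ (2 * w) := by
      rw [← h5]
      omega
    exact (Nat.pow_lt_pow_iff_right (by omega)).1 h6
  refine ⟨⟨by omega, ?_, by omega, hA, hW, hW', co, by omega, ?_⟩, hz2⟩
  · have : A ^ z - W ^ w = S := by omega
    rw [this]; exact hle
  · have hf2 : 1 < f := by
      by_contra hn
      have : f = 1 := by omega
      subst this
      omega
    have h1 : f ^ w ≤ W ^ w := Nat.pow_le_pow_left hW w
    have h2 : A ^ z ≤ (f ^ 2) ^ z := Nat.pow_le_pow_left hA z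
    rw [← pow_mul] at h2
    have h3 : f ^ w < f ^ (2 * z) := by omega
    have := (Nat.pow_lt_pow_iff_right hf2).1 h3
    omega

theorem clo (hBAS : BasStmt) (hRG1 : Rg1Stmt) (hRG2 : Rg2Stmt) (hRG3 : Rg3Stmt) : CloStmt := by
  intro f g x y z hS hf hm
  obtain ⟨hxy, -, -, -, hA3, hBC, hAC, -, -, -, coAC, coAB, -⟩ := hBAS f g x y z hS
  have hf1 : 1 < f := by
    have : (1 : ℕ) < 10 ^ 11 := by norm_num
    omega
  have hg := hS.hg
  have hgf : g < f := by have := hS.hd; omega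
  have hA : f ^ 2 - g ^ 2 ≤ f ^ 2 := Nat.sub_le _ _
  have hC1 : f ≤ f ^ 2 + g ^ 2 := by nlinarith
  have hC2 : f ^ 2 + g ^ 2 ≤ 2 * f ^ 2 := by nlinarith
  have hB1 : f ≤ 2 * f * g := by nlinarith
  have hB2 : 2 * f * g ≤ 2 * f ^ 2 := by nlinarith
  have heq := hS.eq
  have hCp : 0 < (f ^ 2 + g ^ 2) ^ x := by positivity
  have hBp : 0 < (2 * f * g) ^ y := by positivity
  have hmax : max x y < 2 * z := by
    have h2 : (f ^ 2 - g ^ 2) ^ z ≤ (f ^ 2) ^ z := Nat.pow_le_pow_left hA z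
    rw [← pow_mul] at h2
    have h3 : f ^ x ≤ (f ^ 2 + g ^ 2) ^ x := Nat.pow_le_pow_left hC1 x
    have h4 : f ^ y ≤ (2 * f * g) ^ y := Nat.pow_le_pow_left hB1 y
    have h5 : x < 2 * z := (Nat.pow_lt_pow_iff_right hf1).1 (by omega)
    have h6 : y < 2 * z := (Nat.pow_lt_pow_iff_right hf1).1 (by omega)
    exact max_lt h5 h6
  have T : ((2 * f * g) ^ y) ^ 50 ≤ ((f ^ 2 + g ^ 2) ^ x) ^ 43 →
      ∃ τ : Bool, Near f (f ^ 2 - g ^ 2) (Wb τ f g) z (wb τ x y) ∧ max x y ≤ 4 * wb τ x y := by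
    intro h
    obtain ⟨h1, h2⟩ := near (by omega) hA3 hA hS.hx heq hBp h hC1 hC2 coAC
    refine ⟨true, h1, ?_⟩
    have : wb true x y = x := rfl
    rw [this]; omega
  have T' : ((f ^ 2 + g ^ 2) ^ x) ^ 50 ≤ ((2 * f * g) ^ y) ^ 43 →
      ∃ τ : Bool, Near f (f ^ 2 - g ^ 2) (Wb τ f g) z (wb τ x y) ∧ max x y ≤ 4 * wb τ x y := by
    intro h
    obtain ⟨h1, h2⟩ := near (by omega) hA3 hA hS.hy ((add_comm _ _).trans heq) hCp h hB1 hB2 coAB
    refine ⟨false, h1, ?_⟩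
    have : wb false x y = y := rfl
    rw [this]; omega
  rcases Nat.lt_or_ge ((f ^ 2 + g ^ 2) ^ 15) ((2 * f * g) ^ 16) with hr | hr
  · obtain ⟨h1, h2⟩ := hRG1 f g x y z hS hf hm hr
    rcases Nat.lt_or_ge y x with h | h
    · exact T (h1 h)
    · exact T' (h2 (lt_of_le_of_ne h hxy))
  · rcases Nat.le_total ((2 * f * g) ^ y) ((f ^ 2 + g ^ 2) ^ x) with h | h
    · exact T (hRG2 f g x y z hS hf hm hr h)
    · exact T' (hRG3 f g x y z hS hf hm hr h)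

end Pool.Agent.MNE.H17
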